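import Pool.Agent.Q27.Flood

/-! The coset-counting procedure in the free group of rank two terminates for every subgroup of
finite index. -/

namespace Pool.Agent.Results.MP_544047_al.Terminates

/-- The free group of rank two, on the basis `a = of 0`, `b = of 1`. -/
abbrev F2 := FreeGroup (Fin 2)

/-- The symmetric alphabet `{a, b, a⁻¹, b⁻¹}`. -/
def Xi : Set F2 :=
  {FreeGroup.of 0, FreeGroup.of 1, (FreeGroup.of 0)⁻¹, (FreeGroup.of 1)⁻¹}

/-- The set of all cosets `h x H` with `h ∈ Ξ` and `xH` in a given set of cosets. -/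
def neighbours {H : Subgroup F2} (A : Set (F2 ⧸ H)) : Set (F2 ⧸ H) :=
  {c | ∃ h ∈ Xi, ∃ x ∈ A, c = h • x}

/-- The sets `C_i` of the procedure for `i ≥ 0`: `C_0 = {yH}`, `C_1` is the set of all neighbours
of `C_0` (as `C_{-1}` is empty), and `C_{i+2}` is the set of all neighbours of `C_{i+1}` outside
`C_i`. -/
def C (H : Subgroup F2) (y : F2) : ℕ → Set (F2 ⧸ H)
  | 0 => {(y : F2 ⧸ H)}
  | 1 => neighbours {(y : F2 ⧸ H)}
  | (i + 2) => neighbours (C H y (i + 1)) \ C H y i

theorem inv_mem {g : F2} (h : g ∈ Xi) : g⁻¹ ∈ Xi := by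
  simp only [Xi, Set.mem_insert_iff, Set.mem_singleton_iff] at h ⊢
  rcases h with h | h | h | h <;> subst h <;> simp

/-- Inversion of letters. -/
def inv (g : Xi) : Xi := ⟨(g : F2)⁻¹, inv_mem g.2⟩

/-- The action of letters on cosets. -/
def act (H : Subgroup F2) (g : Xi) (v : F2 ⧸ H) : F2 ⧸ H := (g : F2) • v

theorem act_inv (H : Subgroup F2) (g : Xi) (v : F2 ⧸ H) : act H (inv g) (act H g v) = v := by
  simp [act, inv]

theorem inv_inv' (g : Xi) : inv (inv g) = g := by
  apply Subtype.ext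
  simp [inv]

theorem neighbours_eq {H : Subgroup F2} (A : Set (F2 ⧸ H)) :
    neighbours A = Q27.Flood.nbrs (act H) A := by
  ext c
  constructor
  · rintro ⟨h, hh, x, hx, rfl⟩
    exact ⟨x, hx, ⟨h, hh⟩, rfl⟩
  · rintro ⟨x, hx, h, rfl⟩
    exact ⟨h, h.2, x, hx, rfl⟩

theorem C_eq (H : Subgroup F2) (y : F2) (i : ℕ) :
    C H y i = Q27.Flood.C (act H) (y : F2 ⧸ H) i ∧
      C H y (i + 1) = Q27.Flood.C (act H) (y : F2 ⧸ H) (i + 1) := by
  induction i with
  | zero =>
    refine ⟨rfl, ?_⟩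
    change neighbours {(y : F2 ⧸ H)} = Q27.Flood.nbrs (act H) {(y : F2 ⧸ H)}
    exact neighbours_eq _
  | succ i ih =>
    refine ⟨ih.2, ?_⟩
    change neighbours (C H y (i + 1)) \ C H y i =
      Q27.Flood.nbrs (act H) (Q27.Flood.C (act H) (y : F2 ⧸ H) (i + 1)) \
        Q27.Flood.C (act H) (y : F2 ⧸ H) i
    rw [neighbours_eq, ih.1, ih.2]

/-- For every subgroup `H` of finite index of the free group of rank two and every `y`, the
procedure terminates: `C_i` is empty for every `i > [F₂ : H]`. -/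
theorem result (H : Subgroup F2) [H.FiniteIndex] (y : F2) (i : ℕ) (hi : H.index < i) :
    C H y i = ∅ := by
  classical
  by_contra hne
  rw [← ne_eq, ← Set.nonempty_iff_ne_empty, (C_eq H y i).1] at hne
  have : Finite (F2 ⧸ H) := inferInstance
  letI : Fintype (F2 ⧸ H) := Fintype.ofFinite _
  haveI : Finite Xi := by
    unfold Xi
    exact Set.Finite.to_subtype (Set.toFinite _)
  letI : Fintype Xi := Fintype.ofFinite _
  haveI : Nonempty Xi := ⟨⟨FreeGroup.of 0, by simp [Xi]⟩⟩
  have h2 := Q27.Flood.main (act H) inv (y : F2 ⧸ H) (act_inv H) inv_inv' i hne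
  rw [Subgroup.index_eq_card, Nat.card_eq_fintype_card] at hi
  omega

end Pool.Agent.Results.MP_544047_al.Terminates
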